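import Pool.Agent.Lib.MP_7f190d_al.H24.Step

/-!
# MP_7f190d_al, module FINAL: the frozen statement from all the modules
-/

set_option autoImplicit false

namespace Pool.Agent.Lib.MP_7f190d_al

theorem final_main (hGG : GGStatement) (hCO : COStatement) (hL : LStatement) (hK : KStatement)
    (hRT : RTStatement) (hQ1 : Q1Statement) (hQ2 : Q2Statement) (hQ3 : Q3Statement)
    (hW4 : W4Statement) (hW5 : W5Statement) (hS10 : S10Statement) (hF : FStatement)
    (hT : TStatement) (hG : GStatement) :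
    ∃ (G : Type) (_ : Group G) (tG : TopologicalSpace G),
      IsTopologicalGroup G ∧ T2Space G ∧ LocallyCompactSpace G ∧
      ¬ DiscreteTopology G ∧
      Subgroup.center G ≠ ⊥ ∧ Subgroup.center G ≠ ⊤ ∧
      ∀ H : Subgroup G, ∀ τ : TopologicalSpace H,
        @IsTopologicalGroup H τ _ → @T2Space H τ →
        TopologicalSpace.induced (Subtype.val : H → G) tG ≤ τ →
        τ = TopologicalSpace.induced (Subtype.val : H → G) tG := by
  obtain ⟨D, S, T, n₀, hD, h⟩ := step_main hGG hCO hL hK hRT hQ1 hQ2 hQ3 hW4 hW5 hS10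
  have h3 : n₀ ≤ 3 ^ n₀ := (Nat.lt_pow_self (by norm_num)).le
  have hodd : Odd (3 ^ n₀) := Odd.pow (by decide)
  exact hG 3 n₀ Nat.prime_three (hT D S T (3 ^ n₀) hD (h _ h3 hodd) hF)

end Pool.Agent.Lib.MP_7f190d_al
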