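import Pool.Agent.Lib.MP_7f190d_al.Basic

set_option autoImplicit false

namespace Pool.Agent.Lib.MP_7f190d_al

namespace S1m

variable (C : Ctx)

lemma p_eq_of_mem {r : C.Γ} (hr : r ∈ C.R) (v : C.V) : C.p (r • v) = C.p v := by
  rw [C.quot.eqv, (C.quot.ker r).mpr hr, one_smul]

lemma exists_of_p_eq {v w : C.V} (h : C.p v = C.p w) : ∃ r ∈ C.R, v = r • w := by
  obtain ⟨r, hr, hd⟩ := C.quot.dex v w
  refine ⟨r, hr, C.MV.eq0 _ _ ?_⟩
  rw [hd, h, C.M'.self]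

lemma zpow_smul (m : ℤ) (v : C.V) : C.z ^ m • v = v := by
  have h1 : ∀ y : C.V, C.z⁻¹ • y = y := fun y => by rw [inv_smul_eq_iff, C.zV]
  induction m using Int.induction_on with
  | zero => simp
  | succ k ih => rw [zpow_add, mul_smul, zpow_one, C.zV, ih]
  | pred k ih => rw [zpow_sub, mul_smul, zpow_one, h1, ih]

lemma nonempty_X : Nonempty C.X := C.st.ne

lemma far_base (x : C.X) (j : C.J) : C.ρ + 1 ≤ C.MV.d (C.base x) (C.apex j) := C.base_apex x j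

lemma isoV' : Iso C.Γ' C.M' := by
  intro g x y
  obtain ⟨f, rfl⟩ := C.quot.surj g
  obtain ⟨a, rfl⟩ := C.quot.psurj x
  obtain ⟨b, rfl⟩ := C.quot.psurj y
  rw [← C.quot.eqv, ← C.quot.eqv]
  have key : ∀ (f : C.Γ) (a b : C.V),
      C.M'.d (C.p a) (C.p b) ≤ C.M'.d (C.p (f • a)) (C.p (f • b)) := by
    intro f a b
    obtain ⟨r, hr, hd⟩ := C.quot.dex (f • a) (f • b)
    rw [← hd]
    have e : C.MV.d (f • a) (r • f • b) = C.MV.d a ((f⁻¹ * r * f) • b) := by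
      rw [← C.isoV f a ((f⁻¹ * r * f) • b), ← mul_smul, ← mul_smul]
      congr 2
      group
    have hr' : f⁻¹ * r * f ∈ C.R := by
      have := C.R_normal.conj_mem r hr f⁻¹
      simpa using this
    rw [e, ← p_eq_of_mem C hr' b]
    exact C.quot.dle _ _
  refine le_antisymm ?_ (key f a b)
  have := key f⁻¹ (f • a) (f • b)
  simpa using this

lemma zinf (m : ℤ) (h : (C.π C.z) ^ m = 1) : m = 0 := by
  rw [← map_zpow, C.quot.ker] at h
  by_contra hm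
  have h1 : C.z ^ m ≠ 1 := fun h0 => hm (C.st.inf m h0)
  obtain ⟨x⟩ := nonempty_X C
  have h2 := C.R_inj _ h h1 (C.base x) (C.base_apex_ne x) (C.ρ + 1) (C.base_apex x)
  rw [zpow_smul, C.MV.self] at h2
  omega

lemma z_central (g : C.Γ') : g * C.π C.z = C.π C.z * g := by
  obtain ⟨f, rfl⟩ := C.quot.surj g
  rw [← map_mul, ← map_mul, C.st.central]

lemma z_triv (v : C.V') : C.π C.z • v = v := by
  obtain ⟨a, rfl⟩ := C.quot.psurj v
  rw [← C.quot.eqv, C.zV]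

lemma lift (g : C.Γ') (a : C.V) : ∃ f : C.Γ, C.π f = g ∧
    C.MV.d a (f • a) = C.M'.d (C.p a) (g • C.p a) := by
  obtain ⟨f₀, hf₀⟩ := C.quot.surj g
  obtain ⟨r, hr, hd⟩ := C.quot.dex a (f₀ • a)
  refine ⟨r * f₀, ?_, ?_⟩
  · rw [map_mul, (C.quot.ker r).mpr hr, one_mul, hf₀]
  · rw [mul_smul, hd, C.quot.eqv, hf₀]

lemma apex_far (i j : C.J) (h : C.p (C.apex i) ≠ C.p (C.apex j)) :
    2 * C.ρ + 2 ≤ C.M'.d (C.p (C.apex i)) (C.p (C.apex j)) := by
  obtain ⟨r, hr, hd⟩ := C.quot.dex (C.apex i) (C.apex j)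
  rw [← hd, C.apex_eqv]
  apply C.apex_apex
  intro hij
  apply h
  rw [hij, ← C.apex_eqv, p_eq_of_mem C hr]

lemma pi_h (j : C.J) : C.π (C.h j) ^ C.n = C.π C.z := by
  have h1 := (C.quot.ker _).mpr (C.R_rel j)
  rw [map_mul, map_pow, map_inv] at h1
  exact mul_inv_eq_one.mp h1

lemma stab (g : C.Γ') (j : C.J) (h : g • C.p (C.apex j) = C.p (C.apex j)) :
    g ∈ Subgroup.zpowers (C.π (C.h j)) := by
  obtain ⟨f, rfl⟩ := C.quot.surj g
  rw [← C.quot.eqv] at h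
  obtain ⟨r, hr, hd⟩ := exists_of_p_eq C h.symm
  rw [← mul_smul, C.apex_eqv] at hd
  have h1 := (C.apex_inj hd).symm
  obtain ⟨a, b, hab⟩ := (C.js.stab (r * f) j).mp h1
  have h2 : C.π f = C.π (C.h j) ^ a * C.π C.z ^ b := by
    have h3 : C.π (r * f) = C.π f := by rw [map_mul, (C.quot.ker r).mpr hr, one_mul]
    rw [← h3, hab, map_mul, map_zpow, map_zpow]
  refine ⟨a + C.n * b, ?_⟩
  show C.π (C.h j) ^ (a + C.n * b) = C.π f
  rw [h2, zpow_add, zpow_mul, zpow_natCast, pi_h]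

lemma almost (g : C.Γ') (j : C.J) (a : C.V')
    (h1 : C.M'.d a (C.p (C.apex j)) ≤ 10004 * C.D + 1)
    (h2 : C.M'.d a (g • a) ≤ 10004 * C.D) : g • C.p (C.apex j) = C.p (C.apex j) := by
  obtain ⟨f, rfl⟩ := C.quot.surj g
  by_contra hne
  have e : C.π f • C.p (C.apex j) = C.p (C.apex (f • j)) := by
    rw [← C.quot.eqv, C.apex_eqv]
  have h3 := apex_far C (f • j) j (by rw [← e]; exact hne)
  rw [← e] at h3
  have t1 := C.M'.tri (C.π f • C.p (C.apex j)) (C.π f • a) (C.p (C.apex j))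
  have t2 := C.M'.tri (C.π f • a) a (C.p (C.apex j))
  have s1 := C.M'.symm (C.π f • a) a
  have e2 := isoV' C (C.π f) (C.p (C.apex j)) a
  have s2 := C.M'.symm (C.p (C.apex j)) a
  have := C.hρ
  have := C.st.hD
  omega

lemma uniq (f f' : C.Γ) (a : C.V) (hff : C.π f = C.π f')
    (hfar : ∀ j, 10004 * C.D + 2 ≤ C.MV.d a (C.apex j))
    (hd : C.MV.d (f • a) (f' • a) ≤ 2 * (10004 * C.D) + 3) : f = f' := by
  by_contra hne
  have hr : f' * f⁻¹ ∈ C.R := by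
    rw [← C.quot.ker, map_mul, map_inv, hff, mul_inv_cancel]
  have hr1 : f' * f⁻¹ ≠ 1 := fun h => hne (mul_inv_eq_one.mp h).symm
  have hfar' : ∀ j, 10004 * C.D + 2 ≤ C.MV.d (f • a) (C.apex j) := by
    intro j
    have e : C.apex j = f • C.apex (f⁻¹ • j) := by rw [C.apex_eqv, smul_inv_smul]
    rw [e, C.isoV]
    exact hfar _
  have hna : ∀ j, f • a ≠ C.apex j := by
    intro j h
    have := hfar' j
    rw [h, C.MV.self] at this
    omega
  have h1 := C.R_inj _ hr hr1 (f • a) hna _ hfar'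
  have e : (f' * f⁻¹) • f • a = f' • a := by
    rw [← mul_smul]; congr 1; group
  rw [e] at h1
  omega

lemma near (a : C.V) (j : C.J) : ∃ i, C.p (C.apex i) = C.p (C.apex j) ∧
    C.MV.d a (C.apex i) = C.M'.d (C.p a) (C.p (C.apex j)) := by
  obtain ⟨r, hr, hd⟩ := C.quot.dex a (C.apex j)
  refine ⟨r • j, ?_, ?_⟩
  · rw [← C.apex_eqv, p_eq_of_mem C hr]
  · rw [← C.apex_eqv, hd]

lemma geod (a : C.V) (v : C.V') (γ' : ℕ → C.V') (hγ' : C.M'.IsGeod γ' (C.p a) v) :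
    ∃ γ : ℕ → C.V, γ 0 = a ∧ (∀ i ≤ C.M'.d (C.p a) v, C.p (γ i) = γ' i) ∧
    (∀ i j, i ≤ j → j ≤ C.M'.d (C.p a) v → C.MV.d (γ i) (γ j) = j - i) := by
  classical
  -- one step: a lift of `w` at minimal distance from `b`
  have hstep : ∀ (b : C.V) (w : C.V'), ∃ c : C.V, C.p c = w ∧ C.MV.d b c = C.M'.d (C.p b) w := by
    intro b w
    obtain ⟨c, rfl⟩ := C.quot.psurj w
    obtain ⟨r, hr, hd⟩ := C.quot.dex b c
    exact ⟨r • c, p_eq_of_mem C hr c, hd⟩
  choose nx hnx1 hnx2 using hstep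
  let γ : ℕ → C.V := fun i => Nat.rec a (fun i b => nx b (γ' (i + 1))) i
  have hγ0 : γ 0 = a := rfl
  have hγs : ∀ i, γ (i + 1) = nx (γ i) (γ' (i + 1)) := fun i => rfl
  have hp : ∀ i, C.p (γ i) = γ' i := by
    intro i
    cases i with
    | zero => rw [hγ0, hγ'.1]
    | succ i => rw [hγs, hnx1]
  have hone : ∀ i < C.M'.d (C.p a) v, C.MV.d (γ i) (γ (i + 1)) = 1 := by
    intro i hi
    rw [hγs, hnx2, hp]
    exact hγ'.step hi
  have hup : ∀ i k, i + k ≤ C.M'.d (C.p a) v → C.MV.d (γ i) (γ (i + k)) ≤ k := by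
    intro i k
    induction k with
    | zero => intro _; rw [add_zero, C.MV.self]
    | succ k ih =>
      intro hk
      have h1 := ih (by omega)
      have h2 := hone (i + k) (by omega)
      have t := C.MV.tri (γ i) (γ (i + k)) (γ (i + k + 1))
      show C.MV.d (γ i) (γ (i + k + 1)) ≤ k + 1
      omega
  refine ⟨γ, hγ0, fun i _ => hp i, ?_⟩
  intro i j hij hj
  have h1 := hup i (j - i) (by omega)
  rw [show i + (j - i) = j by omega] at h1
  have h2 := C.quot.dle (γ i) (γ j)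
  rw [hp, hp, hγ'.2.2 i j hij hj] at h2
  omega

end S1m

theorem s1 : S1Statement := fun C =>
  ⟨S1m.z_central C, S1m.zinf C, S1m.isoV' C, S1m.z_triv C, S1m.apex_far C, S1m.stab C,
    S1m.almost C, S1m.lift C, S1m.uniq C, S1m.near C, S1m.geod C⟩

end Pool.Agent.Lib.MP_7f190d_al
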