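import Pool.Agent.Lib.MP_7f190d_al.H69.SCommon

set_option autoImplicit false

namespace Pool.Agent.Lib.MP_7f190d_al

theorem s2_of (hS1 : S1Statement) : S2Statement := by
  intro C g f N γ hfg hstep hfar hmove h0 i
  have F := SC.facts hS1 C
  induction i with
  | zero => intro _; exact h0
  | succ i ih =>
    intro hi
    have h1 := ih (by omega)
    obtain ⟨f', hf', hd⟩ := F.lift g (γ (i + 1))
    have h2 := hmove (i + 1) hi
    have hs := hstep i (by omega)
    have hff : f = f' := by
      refine F.uniq f f' (γ i) (by rw [hfg, hf']) (hfar i (by omega)) ?_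
      have t1 := C.MV.tri (f • γ i) (γ i) (f' • γ i)
      have t2 := C.MV.tri (γ i) (γ (i + 1)) (f' • γ i)
      have t3 := C.MV.tri (γ (i + 1)) (f' • γ (i + 1)) (f' • γ i)
      have e := C.isoV f' (γ (i + 1)) (γ i)
      have s1 := C.MV.symm (f • γ i) (γ i)
      have s2 := C.MV.symm (γ (i + 1)) (γ i)
      omega
    rw [hff]
    omega

end Pool.Agent.Lib.MP_7f190d_al
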