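import Pool.Agent.Lib.MP_7f190d_al.H69.SCommon
import Pool.Agent.Lib.MP_7f190d_al.H24.S1

set_option autoImplicit false

namespace Pool.Agent.Lib.MP_7f190d_al

namespace S34m

/-- powers of the lift are the small lifts of the powers -/
lemma pow_small (hS1 : S1Statement) (C : Ctx) (g : C.Γ') (f : C.Γ) (a : C.V) (N : ℕ)
    (hf : C.π f = g) (hfar : ∀ j, 10004 * C.D + 2 ≤ C.MV.d a (C.apex j))
    (h1 : C.MV.d a (f • a) ≤ 4 * C.D + 3)
    (hg : ∀ k : ℕ, k ≤ N → C.M'.d (C.p a) (g ^ k • C.p a) ≤ 4 * C.D + 3) :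
    ∀ k : ℕ, k ≤ N → C.MV.d a (f ^ k • a) ≤ 4 * C.D + 3 := by
  have F := SC.facts hS1 C
  have hD := C.st.hD
  intro k
  induction k with
  | zero => intro _; rw [pow_zero, one_smul, C.MV.self]; omega
  | succ k ih =>
    intro hk
    have h2 := ih (by omega)
    obtain ⟨f', hf', hd⟩ := F.lift (g ^ (k + 1)) a
    have h3 := hg (k + 1) hk
    have hff : f ^ (k + 1) = f' := by
      refine F.uniq _ _ a (by rw [map_pow, hf, hf']) hfar ?_
      have e : f ^ (k + 1) • a = f • f ^ k • a := by rw [← mul_smul, ← pow_succ']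
      have t1 := C.MV.tri (f ^ (k + 1) • a) a (f' • a)
      have t2 := C.MV.tri (f ^ (k + 1) • a) (f • a) a
      have e1 : C.MV.d (f ^ (k + 1) • a) (f • a) = C.MV.d (f ^ k • a) a := by
        rw [e, C.isoV]
      have s1 := C.MV.symm (f ^ k • a) a
      have s2 := C.MV.symm (f • a) a
      omega
    rw [hff]
    omega

end S34m

open S34m

theorem s4_of (hS1 : S1Statement) (hI6 : I6Statement) : S4Statement := by
  intro C g hg hfo
  have F := SC.facts hS1 C
  have hD := C.st.hD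
  obtain ⟨m, hm1, s, hs⟩ := hfo
  have hs' : (C.π C.z) ^ s = g ^ m := hs
  have hn1 : 1 ≤ C.n := C.hn.pos
  obtain ⟨x₀⟩ := C.st.ne
  have hzt : ∀ (s : ℤ) (v : C.V'), (C.π C.z) ^ s • v = v := by
    intro s v
    obtain ⟨a, rfl⟩ := C.quot.psurj v
    rw [← map_zpow, ← C.quot.eqv, S1m.zpow_smul]
  have hgm : ∀ v : C.V', g ^ m • v = v := fun v => by rw [← hs', hzt]
  obtain ⟨pb, hpb⟩ := hI6 C.Γ' C.V' C.M' C.D C.hyp' F.iso g (C.p (C.base x₀)) m m
    (by rw [hgm, C.M'.self]; omega)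
  -- all powers
  have hall : ∀ k : ℤ, C.M'.d pb (g ^ k • pb) ≤ 4 * C.D + 3 := by
    intro k
    have e : g ^ k • pb = g ^ (k % m) • pb := by
      have h1 : k = k % m + m * (k / m) := (Int.emod_add_mul_ediv k m).symm
      have h2 : ∀ (q : ℤ) (v : C.V'), g ^ ((m : ℤ) * q) • v = v := by
        intro q v
        rw [zpow_mul, zpow_natCast, ← hs', ← zpow_mul, hzt]
      conv_lhs => rw [h1, zpow_add, mul_smul, h2]
    rw [e]
    apply hpb
    have h1 := Int.emod_nonneg k (show (m : ℤ) ≠ 0 by omega)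
    have h2 := Int.emod_lt_of_pos k (show (0 : ℤ) < m by omega)
    omega
  obtain ⟨a, rfl⟩ := C.quot.psurj pb
  have hpih : ∀ j, C.π (C.h j) ^ C.n = C.π C.z := S1m.pi_h C
  by_cases hap : ∃ j, C.MV.d a (C.apex j) ≤ 10004 * C.D + 1
  · obtain ⟨j, hj⟩ := hap
    have hfix : g • C.p (C.apex j) = C.p (C.apex j) := by
      refine F.fixed g a j hj ?_
      have := hall 1
      rw [zpow_one] at this
      omega
    exact ⟨Or.inl ⟨j, hfix⟩, _, hpih j, F.stab g j hfix⟩
  · push Not at hap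
    have hfar : ∀ j, 10004 * C.D + 2 ≤ C.MV.d a (C.apex j) := fun j => hap j
    obtain ⟨f, hf, hd⟩ := F.lift g a
    have h1 : C.MV.d a (f • a) ≤ 4 * C.D + 3 := by
      have := hall 1
      rw [zpow_one] at this
      omega
    have hpos : ∀ k : ℕ, C.MV.d a (f ^ k • a) ≤ 4 * C.D + 3 := fun k =>
      pow_small hS1 C g f a k hf hfar h1 (fun k' _ => by
        have := hall k'
        rwa [zpow_natCast] at this) k le_rfl
    have hallf : ∀ k : ℤ, C.MV.d a (f ^ k • a) ≤ 4 * C.D + 3 := by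
      intro k
      rcases Int.natAbs_eq k with hk | hk
      · rw [hk, zpow_natCast]; exact hpos _
      · rw [hk, zpow_neg, zpow_natCast, C.MV.symm, ← C.isoV (f ^ k.natAbs), smul_inv_smul]
        exact hpos _
    -- `f ^ m = z ^ s`
    have hfm : f ^ m = C.z ^ s := by
      refine F.uniq _ _ a (by rw [map_pow, map_zpow, hf, hs']) hfar ?_
      rw [S1m.zpow_smul, C.MV.symm]
      have := hpos m
      omega
    have hFO : FO C.z f := ⟨m, hm1, s, hfm.symm⟩
    have hfz : f ∉ Subgroup.zpowers C.z := by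
      rintro ⟨t, ht⟩
      apply hg
      refine ⟨t, ?_⟩
      have ht' : C.z ^ t = f := ht
      show C.π C.z ^ t = g
      rw [← map_zpow, ht', hf]
    refine ⟨Or.inr ⟨a, f, hfar, hf, hfz, hFO, hallf, hall⟩, ?_⟩
    obtain ⟨k, hk, t, ht⟩ := C.st.C3 f hfz hFO
    have ht' : k ^ t = f := ht
    refine ⟨C.π k, by rw [← map_pow, hk], t, ?_⟩
    show C.π k ^ t = g
    rw [← map_zpow, ht', hf]

namespace S34m

/-- centres along a short geodesic far from the apexes -/
lemma ctr_path (C : Ctx) : ∀ (k : ℕ) (a b : C.V), C.MV.d a b = k →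
    (∀ j, k + 1 ≤ C.MV.d a (C.apex j)) → C.M.d (C.ctr a) (C.ctr b) ≤ k * (2 ^ C.ρ * C.S) := by
  intro k
  induction k with
  | zero =>
    intro a b hab _
    rw [C.MV.eq0 a b hab, C.M.self]; omega
  | succ k ih =>
    intro a b hab hfar
    obtain ⟨c, hc1, hc2⟩ := C.MV.geod a b k (by omega)
    have h1 := ih a c hc1 (fun j => by have := hfar j; omega)
    have hcb : C.MV.d c b = 1 := by omega
    have h2 := C.ctr_step c b ?_ ?_ (by omega)
    · have t := C.M.tri (C.ctr a) (C.ctr c) (C.ctr b)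
      have e : (k + 1) * (2 ^ C.ρ * C.S) = k * (2 ^ C.ρ * C.S) + 2 ^ C.ρ * C.S := by ring
      omega
    · intro j hj
      have := hfar j
      rw [← hj] at this
      omega
    · intro j hj
      have := hfar j
      rw [← hj] at this
      omega

end S34m

theorem s3_of (hS1 : S1Statement) (hI5 : I5Statement) (hI6 : I6Statement) : S3Statement := by
  intro C g hg x m
  by_contra hlt
  push Not at hlt
  have F := SC.facts hS1 C
  have hD := C.st.hD
  have hT1 : 1 ≤ C.T := by have := C.hT; omega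
  obtain ⟨pb, hpb⟩ := hI6 C.Γ' C.V' C.M' C.D C.hyp' F.iso g x C.T m hlt
  obtain ⟨a, rfl⟩ := C.quot.psurj pb
  have hg1 : C.M'.d (C.p a) (g • C.p a) ≤ 4 * C.D + 3 := by
    have := hpb 1 (by simpa using hT1)
    rwa [zpow_one] at this
  have hn1 : 1 ≤ C.n := C.hn.pos
  -- powers of `π (h j)` have finite order
  have hfo : ∀ j, g ∉ Subgroup.zpowers (C.π (C.h j)) := by
    rintro j ⟨t, ht⟩
    apply hg
    have ht' : C.π (C.h j) ^ t = g := ht
    refine ⟨C.n, hn1, t, ?_⟩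
    show C.π C.z ^ t = g ^ C.n
    rw [← ht', ← S1m.pi_h C j, ← zpow_natCast, ← zpow_natCast, ← zpow_mul, ← zpow_mul, mul_comm]
  by_cases hap : ∃ j, C.MV.d a (C.apex j) ≤ 10004 * C.D + 1
  · obtain ⟨j, hj⟩ := hap
    exact hfo j (F.stab g j (F.fixed g a j hj (by omega)))
  push Not at hap
  have hfar : ∀ j, 10004 * C.D + 2 ≤ C.MV.d a (C.apex j) := fun j => hap j
  obtain ⟨f, hf, hd⟩ := F.lift g a
  have hsm := S34m.pow_small hS1 C g f a C.T hf hfar (by omega) (fun k hk => by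
    have := hpb k (by simpa using hk)
    rwa [zpow_natCast] at this) C.T le_rfl
  have hna : ∀ j, a ≠ C.apex j := by
    intro j h
    have := hfar j
    rw [← h, C.MV.self] at this
    omega
  have h1 := S34m.ctr_path C _ a (f ^ C.T • a) rfl (fun j => by have := hfar j; omega)
  rw [C.ctr_eqv _ a hna] at h1
  -- the minimal displacement
  have hne : {k : ℕ | ∃ y : C.X, C.M.d y (f • y) = k}.Nonempty := ⟨_, C.ctr a, rfl⟩
  obtain ⟨y, hy⟩ := Nat.sInf_mem hne
  have hmin : ∀ y' : C.X, sInf {k : ℕ | ∃ y : C.X, C.M.d y (f • y) = k} ≤ C.M.d y' (f • y') :=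
    fun y' => Nat.sInf_le ⟨y', rfl⟩
  have h2 := (hI5 C.Γ C.X C.M C.D C.st.hyp C.st.iso f _ hmin).2 (C.ctr a) C.T
  rw [← hy] at h2
  have hTT := C.hT
  have h3 : C.MV.d a (f ^ C.T • a) * (2 ^ C.ρ * C.S) < C.T := by
    calc C.MV.d a (f ^ C.T • a) * (2 ^ C.ρ * C.S) ≤ (10004 * C.D) * (2 ^ C.ρ * C.S) :=
          Nat.mul_le_mul_right _ (by omega)
      _ = 10004 * C.D * 2 ^ C.ρ * C.S := by ring
      _ < C.T := hTT
  have h4 : C.M.d y (f • y) < 6 * C.D + 2 := by
    have h5 : C.T * C.M.d y (f • y) < C.T * (6 * C.D + 2) := by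
      calc C.T * C.M.d y (f • y) ≤ _ := h2
        _ < C.T + C.T * (6 * C.D + 1) := by omega
        _ = C.T * (6 * C.D + 2) := by ring
    exact Nat.lt_of_mul_lt_mul_left h5
  have hfFO : ¬ FO C.z f := by
    rintro ⟨q, hq1, t, ht⟩
    apply hg
    have ht' : C.z ^ t = f ^ q := ht
    refine ⟨q, hq1, t, ?_⟩
    show C.π C.z ^ t = g ^ q
    rw [← map_zpow, ht', map_pow, hf]
  obtain ⟨j, α, β, hab⟩ := C.js.short f hfFO ⟨y, by omega⟩
  apply hfo j
  refine ⟨α + C.n * β, ?_⟩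
  show C.π (C.h j) ^ (α + C.n * β) = g
  rw [← hf, hab, map_mul, map_zpow, map_zpow, zpow_add, zpow_mul, zpow_natCast, S1m.pi_h]

end Pool.Agent.Lib.MP_7f190d_al
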