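import Pool.Agent.Lib.MP_7f190d_al.H24.Final
import Pool.Agent.Lib.MP_7f190d_al.H1.F
import Pool.Agent.Lib.MP_7f190d_al.H1.G
import Pool.Agent.Lib.MP_7f190d_al.H1.T
import Pool.Agent.Lib.MP_7f190d_al.H3.Rot
import Pool.Agent.Lib.MP_7f190d_al.H3.Gen
import Pool.Agent.Lib.MP_7f190d_al.H32.Q1
import Pool.Agent.Lib.MP_7f190d_al.H32.Q23
import Pool.Agent.Lib.MP_7f190d_al.H34.S10
import Pool.Agent.Lib.MP_7f190d_al.H34.S7
import Pool.Agent.Lib.MP_7f190d_al.H34.S8
import Pool.Agent.Lib.MP_7f190d_al.H34.S9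
import Pool.Agent.Lib.MP_7f190d_al.H35.K
import Pool.Agent.Lib.MP_7f190d_al.H43.CO
import Pool.Agent.Lib.MP_7f190d_al.H43.W2
import Pool.Agent.Lib.MP_7f190d_al.H43.W5
import Pool.Agent.Lib.MP_7f190d_al.H47.P
import Pool.Agent.Lib.MP_7f190d_al.H47.IA
import Pool.Agent.Lib.MP_7f190d_al.H50.GG
import Pool.Agent.Lib.MP_7f190d_al.H50.IB
import Pool.Agent.Lib.MP_7f190d_al.H54.LConn
import Pool.Agent.Lib.MP_7f190d_al.H69.SC5
import Pool.Agent.Lib.MP_7f190d_al.H69.SC6
import Pool.Agent.Lib.MP_7f190d_al.H77.Z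
import Pool.Agent.Lib.MP_7f190d_al.H83.WA
import Pool.Agent.Lib.MP_7f190d_al.H83.W4
import Pool.Agent.Lib.MP_7f190d_al.H24.S1
import Pool.Agent.Lib.MP_7f190d_al.H24.S2
import Pool.Agent.Lib.MP_7f190d_al.H24.S34

/-!
# MP_7f190d_al: all modules together
-/

set_option autoImplicit false

namespace Pool.Agent.Lib.MP_7f190d_al

theorem main :
    ∃ (G : Type) (_ : Group G) (tG : TopologicalSpace G),
      IsTopologicalGroup G ∧ T2Space G ∧ LocallyCompactSpace G ∧
      ¬ DiscreteTopology G ∧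
      Subgroup.center G ≠ ⊥ ∧ Subgroup.center G ≠ ⊤ ∧
      ∀ H : Subgroup G, ∀ τ : TopologicalSpace H,
        @IsTopologicalGroup H τ _ → @T2Space H τ →
        TopologicalSpace.induced (Subtype.val : H → G) tG ≤ τ →
        τ = TopologicalSpace.induced (Subtype.val : H → G) tG := by
  have hS1 : S1Statement := s1
  have hS2 : S2Statement := s2_of hS1
  have hS3 : S3Statement := s3_of hS1 GMet.I5 GMet.I6
  have hS4 : S4Statement := s4_of hS1 GMet.I6
  have hP : PStatement := p_module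
  have hI1 : I1Statement := IA.I1
  have hI2 : I2Statement := IA.I2
  have hI3 : I3Statement := IA.I3
  have hI7 : I7Statement := IA.I7
  have hI5 : I5Statement := GMet.I5
  have hZ : ZStatement := H77.z_of hI1 hI2 hI7
  have hW1 : W1Statement := WA.w1
  have hW2 : W2Statement := w2 hI1 hI2 hW1
  have hW3 : W3Statement := w3 hI7
  have hW4 : W4Statement := WA.w4 hI5
  have hW5 : W5Statement := w5 hI3
  have hW6 : W6Statement := w6 hW5 hP
  have hS5 : S5Statement := S5_of hS1 hS2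
  have hS6 : S6Statement := S6_of hS1 hS2 hS5 hW6
  have hS7 : S7Statement := H34.s7 hS1 hS2 hS4 hS6 hW3
  have hS8 : S8Statement := H34.s8 hS1 hS2 hW2
  have hS9 : S9Statement := H34.s9 hS1 hS2 hS4 hS5
  have hS10 : S10Statement := H34.s10 hS1 hS3 hS4 hS7 hS8 hS9 hZ
  have hL : LStatement := l_of hP GMet.B2
  exact final_main GMet.GG co hL (Kmod.K_of_CO co) H3.rt q1 q2 q3 hW4 hW5 hS10
    (f_module_of hI2 hZ) t_module g_module

end Pool.Agent.Lib.MP_7f190d_al
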