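import Pool.Agent.Lib.MP_7f190d_al.Interfaces
import Pool.Agent.Lib.MP_7f190d_al.Basic

/-!
# MP_7f190d_al, module STEP: constants and the assembly of one step
-/

set_option autoImplicit false

namespace Pool.Agent.Lib.MP_7f190d_al

/-! ## The action on the coned off graph -/

section Action

variable {X : Type} {C : ConeDat X}

lemma CV.cone_congr {j j' : C.J} {y y' : X} (hj : j = j') (hy : y = y') (h1 : y ∈ C.Y j)
    (h2 : y' ∈ C.Y j') (k : ℕ) (hk : 1 ≤ k ∧ k ≤ C.ρ) :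
    (CV.cone j y h1 k hk : CV C) = CV.cone j' y' h2 k hk := by
  subst hj; subst hy; rfl

variable {G : Type} [Group G] [MulAction G X] [MulAction G C.J]

/-- the action on the coned off graph -/
@[reducible] def CV.act (hY : ∀ (g : G) (j : C.J) (y : X), y ∈ C.Y j → g • y ∈ C.Y (g • j)) :
    MulAction G (CV C) where
  smul g v := match v with
    | CV.base x => CV.base (g • x)
    | CV.cone j y hy k hk => CV.cone (g • j) (g • y) (hY g j y hy) k hk
    | CV.apex j => CV.apex (g • j)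
  one_smul v := by
    cases v with
    | base x => exact congrArg CV.base (one_smul G x)
    | cone j y hy k hk => exact CV.cone_congr (one_smul G j) (one_smul G y) _ _ _ _
    | apex j => exact congrArg CV.apex (one_smul G j)
  mul_smul g g' v := by
    cases v with
    | base x => exact congrArg CV.base (mul_smul g g' x)
    | cone j y hy k hk => exact CV.cone_congr (mul_smul g g' j) (mul_smul g g' y) _ _ _ _
    | apex j => exact congrArg CV.apex (mul_smul g g' j)

end Action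

/-! ## Constants -/

/-- a linear function of `s` is eventually smaller than `2 ^ s` -/
lemma exists_pow_large (a b : ℕ) : ∃ s : ℕ, b ≤ 2 ^ s ∧ a * (b + 2 * s) ≤ 2 ^ s := by
  -- `s = 2 r` with `2^r` large: `2^s = (2^r)^2`
  obtain ⟨r, hr⟩ : ∃ r : ℕ, a * (b + 4) ≤ 2 ^ r ∧ b ≤ 2 ^ r := by
    refine ⟨a * (b + 4) + b, ?_, ?_⟩
    · have := (Nat.lt_two_pow_self (n := a * (b + 4) + b)).le
      omega
    · have := (Nat.lt_two_pow_self (n := a * (b + 4) + b)).le
      omega
  refine ⟨2 * r, ?_, ?_⟩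
  · have h1 : (2:ℕ) ^ r ≤ 2 ^ (2 * r) := Nat.pow_le_pow_right (by norm_num) (by omega)
    omega
  · have h2 : (2:ℕ) ^ (2 * r) = 2 ^ r * 2 ^ r := by rw [← pow_add]; congr 1; ring
    have h3 : r + 1 ≤ 2 ^ r := Nat.lt_two_pow_self
    rw [h2]
    calc a * (b + 2 * (2 * r)) ≤ a * ((b + 4) * (r + 1)) := by
          apply Nat.mul_le_mul_left
          nlinarith
      _ = (a * (b + 4)) * (r + 1) := by ring
      _ ≤ 2 ^ r * 2 ^ r := Nat.mul_le_mul hr.1 h3

/-- existence of the scale `S`, general version -/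
lemma exists_scale' (D ρ E F : ℕ) : ∃ S T : ℕ, 1 ≤ T ∧ 1000000 * D ≤ S ∧ 2 ≤ S ∧
    100 * (ρ + E + 10) ≤ S ∧
    (∃ K, T * (700 * D + 1) * (E * S) ≤ 2 ^ K ∧ 4 * D * K ≤ S) ∧ F * S < T := by
  -- a bound for all the constants
  obtain ⟨c, hc⟩ : ∃ c : ℕ, (F + 1) * (700 * D + 1) * E ≤ 2 ^ c :=
    ⟨_, (Nat.lt_two_pow_self).le⟩
  obtain ⟨s, hs1, hs2⟩ := exists_pow_large (4 * D)
    (c + 1000000 * D + 100 * (ρ + E + 10) + 2)
  refine ⟨2 ^ s, F * 2 ^ s + 1, Nat.le_add_left _ _, ?_, ?_, ?_, ?_, Nat.lt_succ_self _⟩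
  · refine le_trans ?_ hs1; clear hs1 hs2 hc; omega
  · exact le_trans (Nat.le_add_left 2 _) hs1
  · refine le_trans ?_ hs1; clear hs1 hs2 hc; omega
  refine ⟨c + 2 * s, ?_, ?_⟩
  · have h1 : F * 2 ^ s + 1 ≤ (F + 1) * 2 ^ s := by
      have : 1 ≤ 2 ^ s := Nat.one_le_two_pow
      nlinarith
    calc (F * 2 ^ s + 1) * (700 * D + 1) * (E * 2 ^ s)
        ≤ ((F + 1) * 2 ^ s) * (700 * D + 1) * (E * 2 ^ s) := by
          gcongr
      _ = ((F + 1) * (700 * D + 1) * E) * (2 ^ s * 2 ^ s) := by ring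
      _ ≤ 2 ^ c * (2 ^ s * 2 ^ s) := by gcongr
      _ = 2 ^ (c + 2 * s) := by rw [pow_add, two_mul, pow_add]
  · refine le_trans ?_ hs2
    apply Nat.mul_le_mul_left
    omega

/-- existence of the scale `S` -/
lemma exists_scale (D ρ : ℕ) : ∃ S T : ℕ, 1 ≤ T ∧ 1000000 * D ≤ S ∧ 2 ≤ S ∧
    100 * (ρ + 10004 * D * 2 ^ (10004 * D) + 10) ≤ S ∧
    (∃ K, T * (700 * D + 1) * (10004 * D * 2 ^ (10004 * D) * S) ≤ 2 ^ K ∧ 4 * D * K ≤ S) ∧
    10004 * D * 2 ^ ρ * S < T :=
  exists_scale' D ρ (10004 * D * 2 ^ (10004 * D)) (10004 * D * 2 ^ ρ)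

/-! ## One step -/

/-- the cone data of a stage -/
@[reducible] def mkCone {Γ : Type} [Group Γ] {X : Type} [MulAction Γ X] (M : GMet X) (J : Type)
    (h : J → Γ) (D S ρ : ℕ) (ne : ∀ j, ∃ x, M.d x (h j • x) ≤ 300 * D) (hS : 2 ≤ S)
    (hρ : 10 ≤ ρ) : ConeDat X where
  M := M
  J := J
  Y := fun j => {x | M.d x (h j • x) ≤ 300 * D}
  S := S
  ρ := ρ
  ne := ne
  hS := hS
  hρ := hρ

lemma coneHyp_mk {Γ : Type} [Group Γ] {z : Γ} {X : Type} [MulAction Γ X] {M : GMet X} {J : Type}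
    [MulAction Γ J] {h : J → Γ} {D S ρ T n : ℕ} (hW5 : W5Statement)
    (hst : StageHyp Γ z X M D (10000 * D) S T n)
    (hj : JSys Γ z X M J h (100 * D) (110 * D))
    (ne : ∀ j, ∃ x, M.d x (h j • x) ≤ 300 * D) (hS : 2 ≤ S) (hρ : 10 ≤ ρ)
    (hS1 : 1000000 * D ≤ S) :
    ConeHyp (mkCone M J h D S ρ ne hS hρ) D (5 * D) (100 * (D + 5 * D + 1)) where
  hyp := hst.hyp
  qc := (hW5 Γ z X M D (10000 * D) S T hst.toPreStage J h hj).1
  he := rfl
  hSe := by
    have := hst.hD
    show 100 * (100 * (D + 5 * D + 1)) ≤ S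
    omega
  ov := by
    have hD := hst.hD
    intro i j hij x x' h1 h2 h3 h4
    refine (hW5 Γ z X M D (10000 * D) S T hst.toPreStage J h hj).2 i j hij x x' ?_ ?_ ?_ ?_
    · obtain ⟨y, hy, hd⟩ := h1
      exact ⟨y, hy, le_trans hd (by omega)⟩
    · obtain ⟨y, hy, hd⟩ := h2
      exact ⟨y, hy, le_trans hd (by omega)⟩
    · obtain ⟨y, hy, hd⟩ := h3
      exact ⟨y, hy, le_trans hd (by omega)⟩
    · obtain ⟨y, hy, hd⟩ := h4
      exact ⟨y, hy, le_trans hd (by omega)⟩

/-- `z` and powers of `z` act trivially. -/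
lemma PreStage.zpow_smul {Γ : Type} [Group Γ] {z : Γ} {X : Type} [MulAction Γ X] {M : GMet X}
    {D L A T : ℕ} (hst : PreStage Γ z X M D L A T) (m : ℤ) (x : X) : z ^ m • x = x := by
  have h1 : ∀ y : X, z⁻¹ • y = y := fun y => by
    rw [inv_smul_eq_iff, hst.ztriv]
  induction m using Int.induction_on with
  | zero => simp
  | succ k ih => rw [zpow_add, mul_smul, zpow_one, hst.ztriv, ih]
  | pred k ih => rw [zpow_sub, mul_smul, zpow_one, h1, ih]

theorem step_main (hGG : GGStatement) (hCO : COStatement) (hL : LStatement) (hK : KStatement)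
    (hRT : RTStatement) (hQ1 : Q1Statement) (hQ2 : Q2Statement) (hQ3 : Q3Statement)
    (hW4 : W4Statement) (hW5 : W5Statement) (hS10 : S10Statement) : StepStatement := by
  classical
  obtain ⟨H, δ₀, hG⟩ := hGG 30
  obtain ⟨D, hDdef⟩ : ∃ D, D = δ₀ + 1 := ⟨_, rfl⟩
  obtain ⟨ρ, hρdef⟩ : ∃ ρ, ρ = 100000 * D + 100 * (H + 1) := ⟨_, rfl⟩
  obtain ⟨S, T, hT1, hS1, hS2, hS3, hlog, hT⟩ := exists_scale D ρ
  obtain ⟨t, ht⟩ : ∃ t, t = 100 * (H + 1) * 2 ^ ρ * S := ⟨_, rfl⟩
  refine ⟨D, S, T, 1000 * (t + 1) * T, by omega, ?_⟩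
  intro n hn hodd
  refine ⟨hodd, hT1, hS1, ?_⟩
  intro Γ _ z X _ M x₀ hst
  obtain ⟨J, instJ, h, hj⟩ := hW4 Γ z X M D (10000 * D) S T n hodd hst
  have ne : ∀ j, ∃ x, M.d x (h j • x) ≤ 300 * D := fun j => by
    obtain ⟨x, hx⟩ := hj.ne j
    exact ⟨x, by omega⟩
  have hρ10 : 10 ≤ ρ := by omega
  have hCH := coneHyp_mk hW5 hst hj ne hS2 hρ10 hS1
  -- the coned off graph
  obtain ⟨MV, co1, co2, co3, co4, co5, co6, co7, co8, co9, co10, co11, co12, co13, co14, co15⟩ :=
    hCO X (mkCone M J h D S ρ ne hS2 hρ10)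
  obtain ⟨Lx, hLx, hLc⟩ := hL X _ D (5 * D) _ hCH MV co1
  obtain ⟨hV, hClose⟩ := hG (CV (mkCone M J h D S ρ ne hS2 hρ10)) MV Lx hLx
  -- the action
  have hYinv : ∀ (g : Γ) (j : J) (y : X), M.d y (h j • y) ≤ 300 * D →
      M.d (g • y) (h (g • j) • g • y) ≤ 300 * D := by
    intro g j y hy
    rw [hj.conj g j, mul_smul, mul_smul, inv_smul_smul, hst.iso]
    exact hy
  let actV : MulAction Γ (CV (mkCone M J h D S ρ ne hS2 hρ10)) :=
    CV.act (C := mkCone M J h D S ρ ne hS2 hρ10) (G := Γ) hYinv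
  -- the rotations
  have hzc : ∀ (g : Γ) (m : ℤ), g * z ^ m = z ^ m * g := fun g m => by
    have h1 : Commute g z := hst.central g
    exact (h1.zpow_right m).eq
  let rot : J → Γ := fun j => h j ^ n * z⁻¹
  have hrotconj : ∀ (g : Γ) (j : J), rot (g • j) = g * rot j * g⁻¹ := by
    intro g j
    show h (g • j) ^ n * z⁻¹ = g * (h j ^ n * z⁻¹) * g⁻¹
    have e1 : g * h j ^ n * g⁻¹ = (g * h j * g⁻¹) ^ n := by
      simp
    have e2 := hzc g⁻¹ (-1)
    rw [zpow_neg_one] at e2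
    rw [hj.conj, ← e1, mul_assoc (g * h j ^ n), e2]
    group
  have hrotfix : ∀ j : J, rot j • j = j := by
    intro j
    rw [hj.stab]
    exact ⟨n, -1, by simp [rot]⟩
  have hrotpow : ∀ (j : J) (k : ℤ) (y : X), rot j ^ k • y = h j ^ (n * k) • y := by
    intro j k y
    have hc : Commute (h j ^ n) z⁻¹ := by
      have : Commute (h j) z := hst.central (h j)
      exact (this.pow_left n).inv_right
    show (h j ^ n * z⁻¹) ^ k • y = _
    rw [hc.mul_zpow, mul_smul, ← zpow_neg_one, ← zpow_mul, hst.toPreStage.zpow_smul,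
      ← zpow_natCast, ← zpow_mul]
  have hrotmove : ∀ (j : J) (k : ℤ) (y : X), M.d y (h j • y) ≤ 300 * D →
      n / T * k.natAbs ≤ M.d y (rot j ^ k • y) := by
    intro j k y _
    rw [hrotpow]
    have key : ∀ m : ℕ, n / T * m ≤ M.d y (h j ^ (n * m) • y) := by
      intro m
      have h3 := hst.A3 (h j) (hj.inf j) y (n * m)
      have h4 : n / T * m * T ≤ M.d y (h j ^ (n * m) • y) * T := by
        calc n / T * m * T = (n / T * T) * m := by ring
          _ ≤ n * m := Nat.mul_le_mul_right _ (Nat.div_mul_le_self n T)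
          _ ≤ T * M.d y (h j ^ (n * m) • y) := h3
          _ = _ := by ring
      exact Nat.le_of_mul_le_mul_right h4 (by omega)
    obtain ⟨N, hN⟩ : ∃ N, N = k.natAbs := ⟨_, rfl⟩
    rw [← hN]
    have hkey := key N
    rcases Int.natAbs_eq k with hk | hk
    · rw [← hN] at hk
      rw [hk, show ((n : ℤ) * (N : ℤ)) = ((n * N : ℕ) : ℤ) by push_cast; ring, zpow_natCast]
      exact hkey
    · rw [← hN] at hk
      have e : M.d y (h j ^ (n * k) • y) = M.d y (h j ^ (n * N) • y) := by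
        rw [← hst.iso (h j ^ (n * N)) y (h j ^ (n * k) • y), ← mul_smul,
          ← zpow_natCast, ← zpow_add, M.symm]
        have : ((n * N : ℕ) : ℤ) + ↑n * k = 0 := by rw [hk]; push_cast; ring
        rw [this, zpow_zero, one_smul]
      rw [e]
      exact hkey
  obtain ⟨ang, hRS⟩ := hK X _ D (5 * D) _ hCH MV H t Lx co1 hClose hLc
    (by show 100 * (H + 1) ≤ ρ; omega) ht Γ rot (n / T) hst.iso (fun g x => rfl)
    (fun g j => rfl) (fun g j y hy k hk => ⟨hYinv g j y hy, rfl⟩) hrotconj hrotfix hrotmove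
    (by rw [Nat.le_div_iff_mul_le (by omega)]; exact hn)
  have hRed := hRT Γ (CV (mkCone M J h D S ρ ne hS2 hρ10)) (mkCone M J h D S ρ ne hS2 hρ10).J MV
    CV.apex rot ang _ _ hRS
  -- the normal subgroup and the quotient
  have hRn : (RotSub rot).Normal := by
    refine ⟨fun r hr g => ?_⟩
    refine Subgroup.closure_induction (p := fun r _ => g * r * g⁻¹ ∈ RotSub rot) ?_ ?_ ?_ ?_ hr
    · rintro _ ⟨j, rfl⟩
      rw [← hrotconj]
      exact Subgroup.subset_closure ⟨_, rfl⟩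
    · simp
    · intro a b _ _ ha hb
      have := (RotSub rot).mul_mem ha hb
      have e : g * a * g⁻¹ * (g * b * g⁻¹) = g * (a * b) * g⁻¹ := by group
      rwa [e] at this
    · intro a _ ha
      have := (RotSub rot).inv_mem ha
      have e : (g * a * g⁻¹)⁻¹ = g * a⁻¹ * g⁻¹ := by group
      rwa [e] at this
  obtain ⟨Γ', V', _, _, M', π, p, hquot⟩ := hQ1 Γ (CV (mkCone M J h D S ρ ne hS2 hρ10)) MV
    (RotSub rot) hRS.iso hRn
  -- neighbours of the apexes
  have hnb : ∀ j : J, ∃ x : CV (mkCone M J h D S ρ ne hS2 hρ10), (∀ i, x ≠ CV.apex i) ∧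
      MV.d (CV.apex j) x = 1 ∧ ∀ i, i ≠ j → 2 ≤ MV.d x (CV.apex i) := by
    intro j
    obtain ⟨y, hy⟩ := ne j
    have hρρ : (mkCone M J h D S ρ ne hS2 hρ10).ρ = ρ := rfl
    have e1 : CV.pt (C := mkCone M J h D S ρ ne hS2 hρ10) j y hy (ρ + 1) = CV.apex j := by
      unfold CV.pt
      rw [dif_neg (by omega), dif_neg (by rw [hρρ]; omega)]
    have e2 : CV.pt (C := mkCone M J h D S ρ ne hS2 hρ10) j y hy ρ =
        CV.cone (C := mkCone M J h D S ρ ne hS2 hρ10) j y hy ρ ⟨by omega, le_rfl⟩ := by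
      unfold CV.pt
      rw [dif_neg (by omega), dif_pos (by rw [hρρ])]
    have e3 := co4 j y hy ρ (ρ + 1) (by omega)
    have hne : ∀ i : J, CV.pt (C := mkCone M J h D S ρ ne hS2 hρ10) j y hy ρ ≠ CV.apex i := by
      intro i
      rw [e2]
      exact fun h => by cases h
    have e4 : MV.d (CV.apex j) (CV.pt (C := mkCone M J h D S ρ ne hS2 hρ10) j y hy ρ) = 1 := by
      rw [e1, MV.symm] at e3
      have : MV.d (CV.apex j) (CV.pt (C := mkCone M J h D S ρ ne hS2 hρ10) j y hy ρ) ≠ 0 :=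
        fun h0 => hne j (MV.eq0 _ _ h0).symm
      omega
    refine ⟨CV.pt (C := mkCone M J h D S ρ ne hS2 hρ10) j y hy ρ, hne, e4, ?_⟩
    intro i hij
    have h1 := co10 j i (Ne.symm hij)
    have h2 := MV.tri (CV.apex j) (CV.pt (C := mkCone M J h D S ρ ne hS2 hρ10) j y hy ρ)
      (CV.apex i)
    rw [hρρ] at h1
    omega
  have hypV' : M'.Hyp D := by
    rw [hDdef]
    exact hQ2 Γ (CV (mkCone M J h D S ρ ne hS2 hρ10)) (mkCone M J h D S ρ ne hS2 hρ10).J MV
      CV.apex rot ang _ _ hRS hRed (fun j => by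
        obtain ⟨x, h1, h2, _⟩ := hnb j
        exact ⟨x, h1, h2⟩) Γ' V' M' π p δ₀ hquot hV
  obtain ⟨hQ3a, hQ3b⟩ := hQ3 Γ (CV (mkCone M J h D S ρ ne hS2 hρ10))
    (mkCone M J h D S ρ ne hS2 hρ10).J MV CV.apex rot ang _ _ hRS hRed
  have hba : ∀ (x : X) (j : J), (CV.base x : CV (mkCone M J h D S ρ ne hS2 hρ10)) ≠
      CV.apex j := fun x j h => by cases h
  let ap : J → CV (mkCone M J h D S ρ ne hS2 hρ10) := fun j => CV.apex j
  let C : Ctx :=
    { Γ := Γ, z := z, X := X, M := M, D := D, T := T, n := n, ρ := ρ, S := S, st := hst, hn := hodd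
      J := J, h := h, js := hj
      V := CV (mkCone M J h D S ρ ne hS2 hρ10), actV := actV, MV := MV, base := CV.base
      apex := ap, ctr := CV.ctr
      isoV := hRS.iso
      zV := by
        intro v
        have hzj : ∀ j : J, z • j = j := fun j => by
          rw [hj.stab]
          exact ⟨0, 1, by simp⟩
        cases v with
        | base x => exact congrArg CV.base (hst.ztriv x)
        | cone j y hy k hk => exact CV.cone_congr (hzj j) (hst.ztriv y) _ _ _ _
        | apex j => exact congrArg CV.apex (hzj j)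
      base_eqv := fun _ _ => rfl
      apex_eqv := fun _ _ => rfl
      apex_inj := fun i j h => CV.apex.inj h
      base_apex_ne := hba
      ctr_base := fun _ => rfl
      ctr_eqv := by
        intro g v hv
        cases v with
        | base x => rfl
        | cone j y hy k hk => rfl
        | apex j => exact absurd rfl (hv j)
      ctr_step := co7
      base_lower := co6
      base_upper := co5
      base_apex := co8
      Y_apex := fun j y hy => co9 y j hy
      apex_apex := co10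
      geod_base := co15
      R := RotSub rot
      R_normal := hRn
      R_rel := fun j => Subgroup.subset_closure ⟨j, rfl⟩
      R_inj := hQ3a
      R_stab := fun r hr j hrj => hQ3b hnb r hr j hrj
      Γ' := Γ', V' := V', M' := M', π := π, p := p
      quot := hquot
      hyp' := hypV'
      hρ := by omega
      hS := hS3
      hS' := by omega
      hlog := hlog
      hT := hT }
  obtain ⟨hst', hx⟩ := hS10 C
  obtain ⟨x1, x2, x3⟩ := hx x₀
  exact ⟨Γ', inferInstance, π z, V', inferInstance, M', p (CV.base x₀), π, hst', hquot.surj, rfl,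
    x1, x2, x3⟩

end Pool.Agent.Lib.MP_7f190d_al
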